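import Pool.Agent.Helper11.M3.GoalsA
import Pool.Agent.Helper11.R.Theta
import Pool.Agent.Helper60.PPS.NLAB

/-!
# Project M3 (MP_fc6b1e_nt): normalised logarithms
-/

set_option autoImplicit false

namespace Pool.Agent.Helper39.M3

open NumberField Polynomial Module IsDedekindDomain
open Pool.Agent.Helper51.RP Pool.Agent.Helper42.RD Pool.Agent.Helper42.PP Pool.Agent.Helper42.PP1
open Pool.Agent.Helper42.PB Pool.Agent.Helper11.M3
open Pool.Agent.Helper60.PPS (vis_sub)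

/-- **A_NRM** -/
theorem a_nrm : Pool.Agent.Helper11.M3.A_NRM := by
  intro p _ K M K₁ M₁ J M₂ _ _ _ _ _ _ _ _ _ _ _ _ _ _ _ _ _ _ _ _ _ _ _ ε δ P a₀ hB B D
  have := hB.t1
  have := hB.gM₂
  have := hB.sit.gMK
  obtain ⟨c, hc⟩ := Pool.Agent.Helper11.R.exists_cth hB.sit B
  have hV : Spl M₂ B.S ⊆ B.Vis := vis_sub (K₁ := M₁) B.S
  let B' : Base p K M K₁ M₁ ε δ P :=
    { B with
      th := fun v x ↦ (c v)⁻¹ * B.th v x
      thh := by
        intro v hv x y
        change (c v)⁻¹ * B.th v (x * y) = (c v)⁻¹ * B.th v x + (c v)⁻¹ * B.th v y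
        rw [B.thh v hv x y, mul_add]
      thk := by
        intro v hv x
        rw [← B.thk v hv x, mul_eq_zero, inv_eq_zero, or_iff_right (hc v hv).1] }
  let D' : BaseB B' a₀ :=
    { unr := D.unr
      a₀S := D.a₀S
      pr := D.pr
      W₂ := D.W₂
      W₂a := D.W₂a
      s0 := fun v ↦ (c v)⁻¹ * D.s0 v
      s0P := by
        intro v hv
        obtain ⟨x, h1, h2, h3⟩ := D.s0P v hv
        refine ⟨x, h1, ?_, h3⟩
        change (c v)⁻¹ * B.th v (inc K M₁ x) = (c v)⁻¹ * D.s0 v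
        rw [h2] }
  refine ⟨B', D', rfl, rfl, ?_⟩
  intro v hv x hx
  change (c v)⁻¹ * B.th v x = _
  rw [(hc v hv).2 x hx, inv_mul_cancel_left₀ (hc v hv).1]

end Pool.Agent.Helper39.M3
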